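import Pool.Agent.Helper97.Tate.Goals

/-!
# Project FewPoints, packet TATE-DIV: division of a theta function by `th w`

The map `a ↦ ser (th w * ∑ iO (a r) * Th κ r (-w c))` from `(OO k)^κ` to `(OO k)^(κ+1)` is linear and
injective, its image is in the kernel of a nonzero functional; over the fraction field the kernel
is the span of the image.
-/

set_option autoImplicit false

noncomputable section

namespace Pool.Agent.Helper54.Tate.DIV

open Pool.Agent.Helper97.Tate Module

variable {k : Type} [Field k]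

lemma cf_add (f g : SS k) (N n : ℤ) : cf (f + g) N n = cf f N n + cf g N n := by
  unfold cf
  split_ifs
  · simp
  · simp

lemma ser_add (f g : SS k) (n : ℤ) : ser (f + g) n = ser f n + ser g n := by
  ext N
  simp [ser, cf_add]

lemma coeff_C_mul (a : k) (u : LaurentPolynomial k) (n : ℤ) :
    (LaurentPolynomial.C a * u).coeff n = a * u.coeff n := by
  rw [← LaurentPolynomial.smul_eq_C_mul, AddMonoidAlgebra.coeff_smul_apply, smul_eq_mul]

lemma ser_iO (a : OO k) (f : SS k) (n : ℤ) : ser (iO a * f) n = a * ser f n := by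
  ext N
  simp only [ser, PowerSeries.coeff_mk, PowerSeries.coeff_mul, cf, iO, PowerSeries.coeff_map,
    Nat.cast_nonneg, if_true, Int.toNat_natCast]
  rw [AddMonoidAlgebra.coeff_sum, Finsupp.finsetSum_apply]
  exact Finset.sum_congr rfl fun p _ => coeff_C_mul _ _ _

lemma ser_zero (n : ℤ) : ser (0 : SS k) n = 0 := by
  ext N
  simp [ser, cf]

lemma iO_X : iO (PowerSeries.X : OO k) = (PowerSeries.X : SS k) := by
  rw [iO, PowerSeries.map_X]

/-- combinations of the standard theta functions -/
def comb (κ : ℕ) (c : k) (a : Fin κ → OO k) : SS k :=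
  ∑ r : Fin κ, iO (a r) * Th κ ((r : ℕ) : ℤ) c

lemma comb_add (κ : ℕ) (c : k) (a b : Fin κ → OO k) :
    comb κ c (a + b) = comb κ c a + comb κ c b := by
  simp only [comb, Pi.add_apply, map_add, add_mul, Finset.sum_add_distrib]

lemma comb_smul (κ : ℕ) (c : k) (t : OO k) (a : Fin κ → OO k) :
    comb κ c (t • a) = iO t * comb κ c a := by
  simp only [comb, Pi.smul_apply, smul_eq_mul, map_mul, Finset.mul_sum, mul_assoc]

/-- multiplication by a fixed series, in coordinates -/
def mulM (u : SS k) (κ : ℕ) (c : k) (κ' : ℕ) : (Fin κ → OO k) →ₗ[OO k] (Fin κ' → OO k) where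
  toFun a r := ser (u * comb κ c a) ((r : ℕ) : ℤ)
  map_add' a b := by
    funext r
    rw [comb_add, mul_add, ser_add]
    rfl
  map_smul' t a := by
    funext r
    rw [comb_smul, mul_left_comm, ser_iO]
    rfl

theorem t (hMUL : S_MUL) (hLIN : S_LIN) (hTHC : S_THC) (hBAS : S_BAS) (hEVC : S_EVC)
    (hTHZ : S_THZ) : S_DIV := by
  intro k _ w κ c f hκ hc hf hw
  have hw0 : (w : k) ≠ 0 := w.ne_zero
  have hw0' : -(w : k) * c ≠ 0 := mul_ne_zero (neg_ne_zero.mpr hw0) hc
  have hwi : (-((w⁻¹ : kˣ) : k)) ≠ 0 := neg_ne_zero.mpr (w⁻¹).ne_zero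
  -- theta functions
  have hcomb : ∀ (κ : ℕ) (c : k), c ≠ 0 → ∀ a : Fin κ → OO k, IsTh κ c (comb κ c a) := by
    intro κ c hc a
    obtain ⟨h0, hadd, -, hmul⟩ := hLIN k κ c
    unfold comb
    have : ∀ s : Finset (Fin κ), IsTh κ c (∑ r ∈ s, iO (a r) * Th κ ((r : ℕ) : ℤ) c) := by
      intro s
      classical
      induction s using Finset.induction_on with
      | empty => simpa using h0
      | insert r s hr ih =>
        rw [Finset.sum_insert hr]
        refine hadd _ _ (hmul _ _ ?_) ih
        exact (hTHC k κ ((r : ℕ) : ℤ) c hc (Int.natCast_nonneg _)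
          (by exact_mod_cast r.isLt)).2.1
    exact this Finset.univ
  have hth : IsTh 1 (-((w⁻¹ : kˣ) : k)) (th w) :=
    (hTHC k 1 0 _ hwi le_rfl (by norm_num)).2.1
  have hprod : ∀ a : Fin κ → OO k,
      IsTh (κ + 1) c (th w * comb κ (-(w : k) * c) a) := by
    intro a
    have h1 := (hMUL k).2 1 κ _ _ _ _ hth (hcomb κ _ hw0' a)
    have h2 : -((w⁻¹ : kˣ) : k) * (-(w : k) * c) = c := by
      rw [neg_mul, neg_mul, mul_neg, neg_neg, ← mul_assoc, Units.inv_mul, one_mul]
    rw [h2, add_comm 1 κ] at h1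
    exact h1
  have hthne : th w ≠ 0 := by
    intro h0
    have := (hTHZ k w w).2.1
    rw [h0] at this
    simp at this
  obtain ⟨hB1, hB2⟩ := hBAS k (κ + 1) c (by omega) hc
  -- two theta functions with the same coordinates are equal
  have heq : ∀ g g' : SS k, IsTh (κ + 1) c g → IsTh (κ + 1) c g' →
      (∀ r : Fin (κ + 1), ser g ((r : ℕ) : ℤ) = ser g' ((r : ℕ) : ℤ)) → g = g' := by
    intro g g' hg hg' h
    rw [hB1 g hg, hB1 g' hg']
    exact Finset.sum_congr rfl fun r _ => by rw [h r]
  set M := mulM (th w) κ (-(w : k) * c) (κ + 1) with hM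
  have hMapp : ∀ a r, M a r = ser (th w * comb κ (-(w : k) * c) a) ((r : ℕ) : ℤ) :=
    fun _ _ => rfl
  have hMinj : Function.Injective M := by
    rw [← LinearMap.ker_eq_bot, LinearMap.ker_eq_bot']
    intro a ha
    have h1 : th w * comb κ (-(w : k) * c) a = 0 := by
      refine heq _ _ (hprod a) (hLIN k (κ + 1) c).1 fun r => ?_
      rw [← hMapp, ha, ser_zero]
      rfl
    have h2 : comb κ (-(w : k) * c) a = 0 := (mul_eq_zero.mp h1).resolve_left hthne
    funext r
    have h3 := (hBAS k κ (-(w : k) * c) hκ hw0').2 a r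
    change ser (comb κ (-(w : k) * c) a) ((r : ℕ) : ℤ) = a r at h3
    rw [h2, ser_zero] at h3
    exact h3.symm
  -- the functional
  let eK : Module.Dual (KK k) (Fin (κ + 1) → KK k) :=
    ∑ r : Fin (κ + 1), (PowerSeries.constantCoeff (evK w (Th (κ + 1) ((r : ℕ) : ℤ) c))) •
      LinearMap.proj r
  have heK : ∀ v, eK v = ∑ r : Fin (κ + 1),
      (PowerSeries.constantCoeff (evK w (Th (κ + 1) ((r : ℕ) : ℤ) c))) * v r := by
    intro v
    simp only [eK, LinearMap.sum_apply, LinearMap.smul_apply, LinearMap.proj_apply, smul_eq_mul]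
  have heKne : eK ≠ 0 := by
    intro h0
    have h1 := heK (Pi.single ⟨1, by omega⟩ 1)
    rw [h0, LinearMap.zero_apply] at h1
    have h2 := (hTHZ k w w).2.2.2 (κ + 1) c (by omega) hc
    apply h2
    rw [Finset.sum_eq_single ⟨1, by omega⟩] at h1
    · simpa using h1.symm
    · intro r _ hr
      rw [Pi.single_eq_of_ne hr, mul_zero]
    · intro h
      exact absurd (Finset.mem_univ _) h
  -- the value of the functional on coordinates of theta functions
  have hval : ∀ g : SS k, IsTh (κ + 1) c g →
      eK (fun r => algebraMap (OO k) (KK k) (ser g ((r : ℕ) : ℤ))) =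
        PowerSeries.constantCoeff (evK w g) := by
    intro g hg
    rw [heK]
    conv_rhs => rw [hB1 g hg]
    rw [map_sum, map_sum]
    refine Finset.sum_congr rfl fun r _ => ?_
    rw [map_mul, map_mul, (hEVC k w (Th (κ + 1) ((r : ℕ) : ℤ) c) 0 0).2.2,
      PowerSeries.constantCoeff_C, mul_comm]
  -- the images of the standard basis
  let u : Fin κ → (Fin (κ + 1) → KK k) := fun r s =>
    algebraMap (OO k) (KK k) (M (Pi.single r 1) s)
  have hMsum : ∀ a : Fin κ → OO k, M a = ∑ r : Fin κ, a r • M (Pi.single r 1) := by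
    intro a
    conv_lhs => rw [pi_eq_sum_univ' a]
    rw [map_sum]
    refine Finset.sum_congr rfl fun r _ => ?_
    rw [map_smul]
  have husum : ∀ a : Fin κ → OO k, ∑ r : Fin κ, (algebraMap (OO k) (KK k) (a r)) • u r =
      fun s => algebraMap (OO k) (KK k) (M a s) := by
    intro a
    funext s
    rw [hMsum a, Finset.sum_apply, Finset.sum_apply, map_sum]
    refine Finset.sum_congr rfl fun r _ => ?_
    simp only [u, Pi.smul_apply, smul_eq_mul, map_mul]
  have hinj : Function.Injective (algebraMap (OO k) (KK k)) := IsFractionRing.injective _ _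
  have huR : LinearIndependent (OO k) u := by
    rw [Fintype.linearIndependent_iff]
    intro a ha r
    have h1 : (fun s => algebraMap (OO k) (KK k) (M a s)) = 0 := by
      rw [← husum a, ← ha]
      refine Finset.sum_congr rfl fun r _ => ?_
      rw [algebraMap_smul]
    have h2 : M a = 0 := by
      funext s
      have := congrFun h1 s
      exact hinj (by simpa using this)
    have h3 : a = 0 := hMinj (by rw [h2, map_zero])
    rw [h3]
    rfl
  have huK : LinearIndependent (KK k) u := (LinearIndependent.iff_fractionRing (OO k) (KK k)).mp huR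
  have hker : Submodule.span (KK k) (Set.range u) = LinearMap.ker eK := by
    apply Submodule.eq_of_le_of_finrank_eq
    · rw [Submodule.span_le]
      rintro _ ⟨r, rfl⟩
      rw [SetLike.mem_coe, LinearMap.mem_ker]
      have h1 := hval _ (hprod (Pi.single r 1))
      change eK (fun s => algebraMap (OO k) (KK k) (M (Pi.single r 1) s)) = _ at h1
      change eK (fun s => algebraMap (OO k) (KK k) (M (Pi.single r 1) s)) = 0
      rw [h1, map_mul, map_mul, (hTHZ k w w).1, zero_mul]
    · rw [finrank_span_eq_card huK, Fintype.card_fin]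
      have h1 := Module.Dual.finrank_ker_add_one_of_ne_zero heKne
      rw [Module.finrank_fin_fun] at h1
      omega
  -- the coordinates of `f`
  have hb : (fun r : Fin (κ + 1) => algebraMap (OO k) (KK k) (ser f ((r : ℕ) : ℤ))) ∈
      Submodule.span (KK k) (Set.range u) := by
    rw [hker, LinearMap.mem_ker, hval f hf, hw]
  rw [Submodule.mem_span_range_iff_exists_fun] at hb
  obtain ⟨v, hv⟩ := hb
  obtain ⟨δ, hδ⟩ := IsLocalization.exist_integer_multiples_of_finite
    (nonZeroDivisors (OO k)) v
  have hδ0 : (δ : OO k) ≠ 0 := nonZeroDivisors.ne_zero δ.2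
  obtain ⟨N, δ', hδ', hδu⟩ : ∃ (N : ℕ) (δ' : (OO k)), IsUnit δ' ∧
      (δ : OO k) = PowerSeries.X ^ N * δ' :=
    ⟨(δ : OO k).order.toNat, (δ : OO k).divXPowOrder,
      PowerSeries.isUnit_divided_by_X_pow_order hδ0,
      PowerSeries.X_pow_order_mul_divXPowOrder.symm⟩
  obtain ⟨ε, hε⟩ := hδ'.exists_right_inv
  choose a ha using hδ
  -- `X ^ N * v r = ε * a r`
  have hXv : ∀ r, algebraMap (OO k) (KK k) (PowerSeries.X ^ N) * v r =
      algebraMap (OO k) (KK k) (ε * a r) := by
    intro r
    rw [map_mul, ha r, Algebra.smul_def, hδu, map_mul]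
    have : algebraMap (OO k) (KK k) ε * (algebraMap (OO k) (KK k) (PowerSeries.X ^ N) *
        algebraMap (OO k) (KK k) δ' * v r) =
        algebraMap (OO k) (KK k) (PowerSeries.X ^ N) * v r *
          (algebraMap (OO k) (KK k) δ' * algebraMap (OO k) (KK k) ε) := by ring
    rw [this, ← map_mul, hε, map_one, mul_one]
  refine ⟨N, comb κ (-(w : k) * c) fun r => ε * a r, hcomb κ _ hw0' _, ?_⟩
  have hXf : (PowerSeries.X : SS k) ^ N * f = iO (PowerSeries.X ^ N) * f := by
    rw [map_pow, iO_X]
  rw [hXf]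
  refine heq _ _ ((hLIN k (κ + 1) c).2.2.2 _ _ hf) (hprod _) fun r => ?_
  apply hinj
  rw [ser_iO, map_mul]
  have h1 := congrFun hv r
  rw [← h1, ← hMapp]
  have h2 := congrFun (husum fun r => ε * a r) r
  rw [← h2, Finset.sum_apply, Finset.sum_apply, Finset.mul_sum]
  refine Finset.sum_congr rfl fun s _ => ?_
  rw [← hXv s]
  simp only [Pi.smul_apply, smul_eq_mul, mul_assoc]

end Pool.Agent.Helper54.Tate.DIV
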